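import Pool.Agent.Y667.BKP.Main
import Pool.Agent.Results.MP_78d38b_nt.ExactProportionFields

/-!
# The order of vanishing formula over every multiquadratic field of a class

`E_D : y² = x³ + 5805 D² x - 285714 D³` is the twist by `D` of the non-CM curve `E_1 = X_0(14)`, with
`2`-division field `ℚ(√-7)`. The class `Adm` consists of the discriminants `D` of any sign which are
squarefree, `≡ 1 mod 4`, prime to `42`, squares modulo `7`, and whose prime factors split completely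
in `ℚ(i, √2, √-7)` or are inert in `ℚ(√2)` and in `ℚ(√-7)`; `D` is good if moreover `E_D(ℚ)` is finite
and `Ш(E_D/ℚ)[2] = 0`. Let `K = ℚ(√d_1, …, √d_n)`, of degree `2ⁿ`, be any field of the class.

For the motive `h¹(E)(1)` over `K` we have `L(s, h¹(E)(1)) = L(E / K, s + 1)` and the `2`-adic
realization is `V_2 E`. We prove the formula `ord_{s = 0} L = dim H¹_f(K, V_2 E) - dim H⁰(K, V_2 E)`, with
both sides equal to zero (the `L`-function is entire and not zero at the centre, and `H⁰(K, V_2 E)` and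
`H¹_f(K, V_2 E)` are zero), for `E = E_{M D}` and at least the proportion `c ^ (2 ^ n)` of the `D` of the
class, with `c = ∏ (1 - 2 ^ (-2 i - 1)) = 0.419…`. The same holds for `E_M` over `K` if all the numbers
`M ∏_{i ∈ T} d_i` are good up to squares, and then also over `K(√D)` for at least the proportion
`c ^ (2 ^ n)` of the `D` of the class.

`H1f 2 W` (`Pool.Agent.Y667.BKP.H1f`) is the group of the classes of the continuous cocycles of the
absolute Galois group with values in `V_2 W = T_2 W ⊗ ℚ_2` whose restriction to the completion at every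
place is in the image of the Kummer map; this is the condition of Bloch and Kato.  An element of
`V_2 W` is described by a sequence of points (`IsV 2 W`). The `L`-function is taken without the
Euler factors at the finitely many places `v ∣ 42 M ∏ d_i`; they have neither a zero nor a pole at the
centre.

The nonvanishing of the `L`-functions and the bound for the Tate-Shafarevich group are those of the
theorem `MP_78d38b_nt.ExactProportionFields` of the library.
-/

set_option autoImplicit false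

open NumberField IsDedekindDomain Filter Topology

namespace Pool.Agent.Results.MP_ec4e4b_nt.MultiquadraticOrderFormula

open Pool.Agent.TH841.SH.D (Gal act Pt)
open Pool.Agent.Y667.BKP (H1f PSeq IsV exists_rat)

/-- coefficients of `E_M : y² = x³ + A M x + B M`, the twist of `X_0(14)` -/
def A (M : ℤ) : ℤ := 5805 * M ^ 2

/-- coefficients of `E_M : y² = x³ + A M x + B M`, the twist of `X_0(14)` -/
def B (M : ℤ) : ℤ := -285714 * M ^ 3

/-- the curve `E_D` over `ℚ` -/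
def E (D : ℤ) : WeierstrassCurve ℚ :=
  { a₁ := 0, a₂ := 0, a₃ := 0, a₄ := (A D : ℚ), a₆ := (B D : ℚ) }

/-- `E_D(ℚ)` is finite and `Ш(E_D/ℚ)` has no element of order two -/
def RankZeroShaTwo (D : ℤ) : Prop :=
  Finite (E D).toAffine.Point ∧ ∀ x : Pool.Agent.TH841.SH.D.Sha (E D), 2 • x = 0 → x = 0

/-- primes which split completely in `ℚ(i, √2, √-7)` -/
def Split (p : ℕ) : Prop := p.Prime ∧ p % 8 = 1 ∧ (p % 7 = 1 ∨ p % 7 = 2 ∨ p % 7 = 4)

/-- primes inert in `ℚ(√2)` and in `ℚ(√-7)` -/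
def Inert (q : ℕ) : Prop :=
  q.Prime ∧ (q % 8 = 3 ∨ q % 8 = 5) ∧ (q % 7 = 3 ∨ q % 7 = 5 ∨ q % 7 = 6)

/-- the class of discriminants -/
def Adm (D : ℤ) : Prop := Squarefree D ∧ D % 4 = 1 ∧ (D % 7 = 1 ∨ D % 7 = 2 ∨ D % 7 = 4) ∧
  ∀ p : ℕ, p.Prime → (p : ℤ) ∣ D → p ≠ 3 ∧ (Split p ∨ Inert p)

/-- the good discriminants -/
def Good (D : ℤ) : Prop := Adm D ∧ RankZeroShaTwo D

/-- the pairs `(M, d)` such that `ℚ(√d_1, …, √d_n)` has degree `2ⁿ` and all numbers `M ∏_{i ∈ T} d_i`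
are good up to squares -/
def GoodPair {n : ℕ} (M : ℤ) (d : Fin n → ℤ) : Prop :=
  (∀ T : Finset (Fin n), T.Nonempty → ¬ IsSquare (∏ i ∈ T, d i)) ∧
  ∀ T : Finset (Fin n), ∃ D k : ℤ, Good D ∧ k ≠ 0 ∧ M * ∏ i ∈ T, d i = D * k ^ 2

/-- `K = ℚ(√d_1, …, √d_n)` -/
def IsMultiquadratic {n : ℕ} (d : Fin n → ℤ) (K : Type) [Field K] [NumberField K] : Prop :=
  ∃ x : Fin n → K, (∀ i, x i ^ 2 = (d i : K)) ∧ IntermediateField.adjoin ℚ (Set.range x) = ⊤

/-- the curve `E_M` over `K` -/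
def EK (K : Type) [Field K] (M : ℤ) : WeierstrassCurve K := ⟨0, 0, 0, (A M : K), (B M : K)⟩

/-- the number `q_v` of elements of the residue field of a finite place `v` of `K` -/
noncomputable def qv (K : Type) [Field K] (v : HeightOneSpectrum (𝓞 K)) : ℕ :=
  Nat.card (𝓞 K ⧸ v.asIdeal)

/-- `a_v = q_v + 1 - #E_M(k_v)`, that is `q_v` minus the number of affine points -/
noncomputable def av (K : Type) [Field K] (M : ℤ) (v : HeightOneSpectrum (𝓞 K)) : ℤ :=
  (qv K v : ℤ) - Nat.card {z : (𝓞 K ⧸ v.asIdeal) × (𝓞 K ⧸ v.asIdeal) //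
    z.2 ^ 2 = z.1 ^ 3 + (A M : 𝓞 K ⧸ v.asIdeal) * z.1 + (B M : 𝓞 K ⧸ v.asIdeal)}

open Classical in
/-- `F` is entire and is, for `Re s > 3/2`, the `L`-function of `E_M` over `K` without the Euler
factors at the places `v ∣ 42 M m` -/
def IsL (K : Type) [Field K] (M m : ℤ) (F : ℂ → ℂ) : Prop :=
  Differentiable ℂ F ∧ ∀ s : ℂ, (3 : ℝ) / 2 < s.re →
    HasProd (fun v : HeightOneSpectrum (𝓞 K) =>
      if ((42 * M * m : ℤ) : 𝓞 K) ∈ v.asIdeal then 1 else
        (1 - (av K M v : ℂ) * (qv K v : ℂ) ^ (-s) + (qv K v : ℂ) ^ (1 - 2 * s))⁻¹) (F s)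

/-- `z` is, up to squares, in the class of discriminants -/
def AdmSq (z : ℤ) : Prop := ∃ D k : ℤ, Adm D ∧ k ≠ 0 ∧ z = D * k ^ 2

/-- the fields `ℚ(√d_1, …, √d_n)` of degree `2ⁿ` with all `d_i` in the class up to squares -/
def Fam {n : ℕ} (d : Fin n → ℤ) : Prop :=
  (∀ T : Finset (Fin n), T.Nonempty → ¬ IsSquare (∏ i ∈ T, d i)) ∧ ∀ i, AdmSq (d i)

/-- the proportion `(1 - 1/2) (1 - 1/8) (1 - 1/32) ⋯` -/
noncomputable def c : ℝ := ∏' i : ℕ, (1 - (1 / 2 : ℝ) ^ (2 * i + 1))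

open Classical in
/-- the proportion of the `D ≤ X` with `P D` among those with `Adm (ε D)` -/
noncomputable def prop (ε : ℤ) (P : ℕ → Prop) (X : ℕ) : ℝ :=
  (((Finset.Icc 1 X).filter fun D : ℕ => Adm (ε * D) ∧ P D).card : ℝ) /
    (((Finset.Icc 1 X).filter fun D : ℕ => Adm (ε * D)).card : ℝ)

/-- `H⁰(K, V_2 W) = 0`: the elements of `V_2 W` that are fixed by the Galois group are zero. -/
def NoInvariants {K : Type} [Field K] (W : WeierstrassCurve K) : Prop :=
  ∀ x : PSeq W, IsV 2 W x → (∀ (σ : Gal K) (n : ℕ), act W σ.toAlgHom (x n) = x n) → ∀ n, x n = 0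

/-- The order of vanishing formula for `h¹(E_M)(1)` over `K` and `p = 2`, with both sides zero: `E_M` is
an elliptic curve, its `L`-function over `K` (without the Euler factors at `v ∣ 42 M m`) extends to
an entire function, not zero at `1`, and `H⁰(K, V_2 E_M)` and `H¹_f(K, V_2 E_M)` are zero. -/
def Formula (K : Type) [Field K] [NumberField K] (M m : ℤ) : Prop :=
  (EK K M).IsElliptic ∧ (∃ F : ℂ → ℂ, IsL K M m F ∧ F 1 ≠ 0) ∧
  NoInvariants (EK K M) ∧ ∀ x : H1f 2 (EK K M), x = 0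

theorem prop_mono {ε : ℤ} {P Q : ℕ → Prop} (h : ∀ D, P D → Q D) (X : ℕ) :
    prop ε P X ≤ prop ε Q X := by
  classical
  unfold prop
  refine div_le_div_of_nonneg_right ?_ (Nat.cast_nonneg _)
  refine Nat.cast_le.2 (Finset.card_le_card ?_)
  intro D hD
  rw [Finset.mem_filter] at hD ⊢
  exact ⟨hD.1, hD.2.1, h D hD.2.2⟩

/-- the invariants of `V_2` are zero if there are finitely many points -/
lemma noInvariants_of {K : Type} [Field K] [NumberField K] {W : WeierstrassCurve K}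
    (hfin : Finite W.toAffine.Point) : NoInvariants W := by
  classical
  intro x hx hfix n
  obtain ⟨j, -, -, hj⟩ := exists_rat W
  obtain ⟨N, hN⟩ : ∃ N : ℕ, N = Nat.card W.toAffine.Point := ⟨_, rfl⟩
  have hN0 : N ≠ 0 := by
    rw [hN]
    exact Nat.card_pos.ne'
  obtain ⟨v, N', hndvd, hNv⟩ := Nat.exists_eq_pow_mul_and_not_dvd hN0 2 (by norm_num)
  have hpow : ∀ k : ℕ, (2 ^ k : ℕ) • x (n + k) = x n := by
    intro k
    induction k with
    | zero => simp
    | succ k ih => rw [pow_succ, mul_smul, ← add_assoc, (hx (n + k)).1, ih]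
  have h1 : N • x (n + v) = 0 := by
    obtain ⟨q, hq⟩ := hj (x (n + v)) (fun σ => hfix σ (n + v))
    rw [← hq, ← map_nsmul, hN, card_nsmul_eq_zero', map_zero]
  have h2 : N' • x n = 0 := by
    rw [← hpow v, smul_smul, mul_comm, ← hNv, h1]
  obtain ⟨m, hm⟩ := (hx n).2
  have h3 := Nat.dvd_gcd (addOrderOf_dvd_iff_nsmul_eq_zero.2 h2)
    (addOrderOf_dvd_iff_nsmul_eq_zero.2 hm)
  have h4 : Nat.gcd N' (2 ^ m) = 1 :=
    ((Nat.Prime.coprime_iff_not_dvd Nat.prime_two).2 hndvd).symm.pow_right m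
  rw [h4, Nat.dvd_one, AddMonoid.addOrderOf_eq_one_iff] at h3
  exact h3

/-- `E_M` is an elliptic curve -/
lemma elliptic (K : Type) [Field K] [NumberField K] {M : ℤ} (hM : M ≠ 0) : (EK K M).IsElliptic := by
  constructor
  rw [isUnit_iff_ne_zero]
  have e : (EK K M).Δ = ((-(16 * (4 * A M ^ 3 + 27 * B M ^ 2)) : ℤ) : K) := by
    simp only [EK, WeierstrassCurve.Δ, WeierstrassCurve.b₂, WeierstrassCurve.b₄,
      WeierstrassCurve.b₆, WeierstrassCurve.b₈]
    push_cast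
    ring
  have e2 : (-(16 * (4 * A M ^ 3 + 27 * B M ^ 2)) : ℤ) = -(2 ^ 18 * 3 ^ 12 * 7 ^ 3) * M ^ 6 := by
    unfold A B
    ring
  rw [e, e2]
  exact_mod_cast mul_ne_zero (by norm_num) (pow_ne_zero 6 hM)

lemma ne_zero_of_good {n : ℕ} {M : ℤ} {d : Fin n → ℤ} (h : GoodPair M d) : M ≠ 0 := by
  obtain ⟨D, k, hD, hk, he⟩ := h.2 ∅
  rw [Finset.prod_empty, mul_one] at he
  rw [he]
  exact mul_ne_zero hD.1.1.ne_zero (pow_ne_zero 2 hk)

/-- the formula for the good pairs -/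
theorem formula {n : ℕ} {M : ℤ} {d : Fin n → ℤ} (hd : GoodPair M d) (K : Type) [Field K]
    [NumberField K] (hK : IsMultiquadratic d K) : Formula K M (∏ i, d i) := by
  obtain ⟨h1, -, -, -⟩ := Pool.Agent.Results.MP_78d38b_nt.ExactProportionFields.parts
  obtain ⟨-, -, hs, hfin, ⟨F, hF⟩, hne⟩ := h1 n M d hd K hK
  refine ⟨elliptic K (ne_zero_of_good hd), ⟨F, hF, hne F hF⟩, noInvariants_of hfin, ?_⟩
  exact Pool.Agent.Y667.BKP.h1f_zero Nat.prime_two hfin n hs

/-- **The order of vanishing formula over the multiquadratic fields of the class.**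
(1) Let `(M, d)` be a good pair and `K = ℚ(√d_1, …, √d_n)`. Then the degree of `K` is `2ⁿ` and the
formula holds for `E_M` over `K` and `p = 2`.
(2) Let `K = ℚ(√d_1, …, √d_n)` be a field of degree `2ⁿ` with all `d_i` and `M` in the class up to
squares. The `D` of the class of a given sign such that `(M D, d)` is a good pair have exactly the
proportion `c ^ (2 ^ n)`; so for all `δ > 0` and all large `X` the `D` with the formula for `E_{M D}`
over `K` have at least the proportion `c ^ (2 ^ n) - δ`.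
(3) Let `(M, d)` be a good pair and `K = ℚ(√d_1, …, √d_n)`. The `D` of the class of a given sign such
that `(M, (d, D))` is a good pair have exactly the proportion `c ^ (2 ^ n)`; so for all `δ > 0` and all
large `X` the `D` such that the field `K(√D)` has degree `2ⁿ⁺¹` and the formula holds for `E_M` over
`K(√D)` have at least the proportion `c ^ (2 ^ n) - δ`.
(4) `0.4194 < c < 0.4195`. -/
theorem result :
    (∀ (n : ℕ) (M : ℤ) (d : Fin n → ℤ), GoodPair M d → ∀ (K : Type) [Field K] [NumberField K],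
      IsMultiquadratic d K → Module.finrank ℚ K = 2 ^ n ∧ Formula K M (∏ i, d i)) ∧
    (∀ (n : ℕ) (d : Fin n → ℤ) (M : ℤ), Fam d → AdmSq M → ∀ ε : ℤ, (ε = 1 ∨ ε = -1) →
      Tendsto (prop ε fun D => GoodPair (M * (ε * D)) d) atTop (𝓝 (c ^ 2 ^ n)) ∧
      ∀ (K : Type) [Field K] [NumberField K], IsMultiquadratic d K →
        ∀ δ : ℝ, 0 < δ → ∃ X₀ : ℕ, ∀ X : ℕ, X₀ ≤ X →
          c ^ 2 ^ n - δ ≤ prop ε (fun D => Formula K (M * (ε * D)) (∏ i, d i)) X) ∧
    (∀ (n : ℕ) (M : ℤ) (d : Fin n → ℤ), GoodPair M d → ∀ ε : ℤ, (ε = 1 ∨ ε = -1) →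
      Tendsto (prop ε fun D => GoodPair M (Fin.snoc d (ε * D) : Fin (n + 1) → ℤ)) atTop
        (𝓝 (c ^ 2 ^ n)) ∧
      ∀ δ : ℝ, 0 < δ → ∃ X₀ : ℕ, ∀ X : ℕ, X₀ ≤ X → c ^ 2 ^ n - δ ≤ prop ε (fun D =>
        ∀ (K : Type) [Field K] [NumberField K],
          IsMultiquadratic (Fin.snoc d (ε * D) : Fin (n + 1) → ℤ) K →
          Module.finrank ℚ K = 2 ^ (n + 1) ∧
          Formula K M (∏ i, (Fin.snoc d (ε * D) : Fin (n + 1) → ℤ) i)) X) ∧
    0.4194 < c ∧ c < 0.4195 := by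
  obtain ⟨h1, h2, h3, h4, h5⟩ := Pool.Agent.Results.MP_78d38b_nt.ExactProportionFields.parts
  have low : ∀ (f : ℕ → ℝ) (a : ℝ), Tendsto f atTop (𝓝 a) → ∀ δ : ℝ, 0 < δ →
      ∃ X₀ : ℕ, ∀ X : ℕ, X₀ ≤ X → a - δ ≤ f X := by
    intro f a hf δ hδ
    have h := hf.eventually (lt_mem_nhds (show a - δ < a by linarith))
    obtain ⟨X₀, hX⟩ := eventually_atTop.1 h
    exact ⟨X₀, fun X hX' => (hX X hX').le⟩
  have key : ∀ (n : ℕ) (M : ℤ) (d : Fin n → ℤ), GoodPair M d → ∀ (K : Type) [Field K]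
      [NumberField K], IsMultiquadratic d K →
      Module.finrank ℚ K = 2 ^ n ∧ Formula K M (∏ i, d i) := by
    intro n M d hd K _ _ hK
    exact ⟨(h1 n M d hd K hK).1, formula hd K hK⟩
  have lim2 : ∀ (n : ℕ) (d : Fin n → ℤ) (M : ℤ), Fam d → AdmSq M → ∀ ε : ℤ, (ε = 1 ∨ ε = -1) →
      Tendsto (prop ε fun D => GoodPair (M * (ε * D)) d) atTop (𝓝 (c ^ 2 ^ n)) := h2
  have lim3 : ∀ (n : ℕ) (M : ℤ) (d : Fin n → ℤ), GoodPair M d → ∀ ε : ℤ, (ε = 1 ∨ ε = -1) →
      Tendsto (prop ε fun D => GoodPair M (Fin.snoc d (ε * D) : Fin (n + 1) → ℤ)) atTop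
        (𝓝 (c ^ 2 ^ n)) := h3
  refine ⟨key, fun n d M hd hM ε hε => ⟨lim2 n d M hd hM ε hε, fun K _ _ hK δ hδ => ?_⟩,
    fun n M d hd ε hε => ⟨lim3 n M d hd ε hε, fun δ hδ => ?_⟩, h4, h5⟩
  · obtain ⟨X₀, hX⟩ := low _ _ (lim2 n d M hd hM ε hε) δ hδ
    exact ⟨X₀, fun X hX' => (hX X hX').trans (prop_mono (fun D hD => (key n _ d hD K hK).2) X)⟩
  · obtain ⟨X₀, hX⟩ := low _ _ (lim3 n M d hd ε hε) δ hδ
    exact ⟨X₀, fun X hX' => (hX X hX').trans
      (prop_mono (fun D hD => by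
        intro K _ _ hK
        exact key (n + 1) _ _ hD K hK) X)⟩

end Pool.Agent.Results.MP_ec4e4b_nt.MultiquadraticOrderFormula
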