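import Pool.Agent.Y667.BKP.Main
import Pool.Agent.Results.MP_78d38b_nt.QuarticTowersSha

/-!
# The order of vanishing formula over the fields `ℚ(i)(⁴√l, √q)`, for a positive proportion of the
# elliptic curves over `ℚ(i)` with `j`-invariant `1728`

Every elliptic curve over `ℚ(i)` with `j = 1728` is isomorphic to `E_D : y² = x³ + D x` for exactly one
Gaussian integer `D` that no fourth power of a prime divides.  We prove that for a positive
proportion of all these `D`, ordered by norm, there is an infinite set `Q` of primes `l` such that for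
every finite subset `S₄` of `Q` and every finite set `S₂` of primes `q` (not dividing `2D`, of norm `1`
modulo `8`, modulo which `D` is not a square and the `l` in `S₄` are squares) the order of vanishing
formula `ord_{s = 0} L(s, M) = dim H¹_f(F, M_2) - dim H⁰(F, M_2)` holds for `p = 2` and the motive
`M = h¹(E_D)(1)` over `F = ℚ(i)(⁴√l, √q : l ∈ S₄, q ∈ S₂)`, with `L(s, M) = L(E_D / F, s + 1)` and
`M_2 = V_2 E_D`; both sides are zero.  The field `F` is an abelian extension of `ℚ(i)` with Galois group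
`(ℤ/4)^a × (ℤ/2)^b`.

`H1f 2 W` (`Pool.Agent.Y667.BKP.H1f`) is the group of the classes of the continuous cocycles of the
absolute Galois group with values in `V_2 W = T_2 W ⊗ ℚ_2` whose restriction to the completion at every
place is in the image of the Kummer map; this is the condition of Bloch and Kato.  An element of
`V_2 W` is described by a sequence of points (`IsV 2 W`).

The `L`-function is the Euler product over the places of `F` that do not divide `2 D ∏ l ∏ q`; the Euler
factors of `h¹(E_D)(1)` at the finitely many other places are finite and not zero at the centre, so the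
order of vanishing is the same.
-/

set_option autoImplicit false

namespace Pool.Agent.Results.MP_ec4e4b_nt.QuarticTowersOrderFormula

open NumberField IsDedekindDomain
open Pool.Agent.TH841.SH.D (Gal act Pt)
open Pool.Agent.Y667.BKP (H1f PSeq IsV exists_rat)

/-- `d` is primary: `d ≡ 1` modulo `2 + 2i`. -/
def Primary (d : GaussianInt) : Prop := (⟨2, 2⟩ : GaussianInt) ∣ d - 1

/-- The curve `y² = x³ + a x`. -/
def curve {L : Type} [Field L] (a : L) : WeierstrassCurve L := ⟨0, 0, 0, a, 0⟩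

variable {F : Type} [Field F] [NumberField F]

/-- `F = ℚ(i)(⁴√l, √q : l ∈ S₄, q ∈ S₂)`, where `ℤ[i]` is embedded in `F` by `ι`. -/
def Generated (ι : GaussianInt →+* 𝓞 F) (S₄ S₂ : Finset GaussianInt) : Prop :=
  ∃ r : GaussianInt → 𝓞 F, (∀ l ∈ S₄, r l ^ 4 = ι l) ∧ (∀ q ∈ S₂, r q ^ 2 = ι q) ∧
    ∀ L : Subfield F, (∀ g : GaussianInt, (ι g : F) ∈ L) → (∀ l ∈ S₄, (r l : F) ∈ L) →
      (∀ q ∈ S₂, (r q : F) ∈ L) → L = ⊤

/-- `q_v`, the number of elements of the residue field `k_v`. -/
noncomputable def q (v : HeightOneSpectrum (𝓞 F)) : ℕ := Ideal.absNorm v.asIdeal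

/-- `#E(k_v)` with the point at infinity, for `E : y² = x³ + a x`. -/
noncomputable def numPoints (a : 𝓞 F) (v : HeightOneSpectrum (𝓞 F)) : ℕ :=
  Nat.card {P : (𝓞 F ⧸ v.asIdeal) × (𝓞 F ⧸ v.asIdeal) // P.2 ^ 2 =
    P.1 ^ 3 + Ideal.Quotient.mk v.asIdeal a * P.1} + 1

/-- The Euler factor `(1 - a_v q_v^{-s} + q_v^{1-2s})⁻¹` of `y² = x³ + a x`,
`a_v = q_v + 1 - #E(k_v)`. -/
noncomputable def factor (a : 𝓞 F) (s : ℂ) (v : HeightOneSpectrum (𝓞 F)) : ℂ :=
  (1 - ((q v : ℂ) + 1 - numPoints a v) * (q v : ℂ) ^ (-s) + (q v : ℂ) ^ (1 - 2 * s))⁻¹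

/-- `H⁰(F, V_2 W) = 0`: the elements of `V_2 W` that are fixed by the Galois group are zero. -/
def NoInvariants {K : Type} [Field K] (W : WeierstrassCurve K) : Prop :=
  ∀ x : PSeq W, IsV 2 W x → (∀ (σ : Gal K) (n : ℕ), act W σ.toAlgHom (x n) = x n) → ∀ n, x n = 0

/-- The Euler product of `y² = x³ + a x` over the places of `F` which do not divide `N` has an entire
continuation `L` with `L(1) ≠ 0`. -/
def CentralValueNonzero (N a : 𝓞 F) : Prop :=
  ∃ L : ℂ → ℂ, Differentiable ℂ L ∧
    (∀ z : ℂ, 3 / 2 < z.re → HasProd (fun v : {v : HeightOneSpectrum (𝓞 F) //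
      N ∉ v.asIdeal} => factor a z v.1) (L z)) ∧ L 1 ≠ 0

/-- `H¹_f(K, V_2 W) = 0`. -/
def NoSelmer {K : Type} [Field K] [NumberField K] (W : WeierstrassCurve K) : Prop :=
  ∀ x : H1f 2 W, x = 0

/-- The order of vanishing formula for `h¹(W)(1)`, `W : y² = x³ + D x` over `F`, and `p = 2`, with both
sides zero: `W` is an elliptic curve, the Euler product over the places of `F` that do not divide `M`
extends to an entire function that is not zero at `1`, and `H⁰(F, V_2 W)` and `H¹_f(F, V_2 W)` are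
zero. -/
def Formula (ι : GaussianInt →+* 𝓞 F) (M D : GaussianInt) : Prop :=
  (curve ((ι D : 𝓞 F) : F)).IsElliptic ∧ CentralValueNonzero (ι M) (ι D) ∧
  NoInvariants (curve ((ι D : 𝓞 F) : F)) ∧ NoSelmer (curve ((ι D : 𝓞 F) : F))

/-- The curve `y² = x³ + D x` over the field `K` with ring of integers `ℤ[i]`. -/
noncomputable def curveOver {K : Type} [Field K] [NumberField K] (e : GaussianInt ≃+* 𝓞 K)
    (D : GaussianInt) : WeierstrassCurve K :=
  curve (algebraMap (𝓞 K) K (e D))

/-- `D` is not zero and no fourth power of a prime divides it. -/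
def FourthPowerFree (D : GaussianInt) : Prop := D ≠ 0 ∧ ∀ π : GaussianInt, Prime π → ¬ π ^ 4 ∣ D

/-- All the parameters `D` of norm at most `X`; each of them is one elliptic curve over `ℚ(i)` with
`j = 1728`, up to isomorphism. -/
def Family (X : ℕ) : Set GaussianInt := {D | FourthPowerFree D ∧ D.norm ≤ X}

/-- The primes allowed for the square roots: `q` is a primary prime that does not divide `D`, of norm
`1` modulo `8`, `D` is not a square modulo `q`, and the elements of `S₄` are prime to `q` and squares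
modulo `q`. -/
def Allowed (D : GaussianInt) (S₄ : Finset GaussianInt) : Set GaussianInt :=
  {q | Prime q ∧ Primary q ∧ ¬ q ∣ D ∧ q.norm % 8 = 1 ∧ (¬ ∃ x : GaussianInt, q ∣ D - x ^ 2) ∧
    ∀ l ∈ S₄, ¬ q ∣ l ∧ ∃ x : GaussianInt, q ∣ l - x ^ 2}

/-- Those `D` for which there is an infinite set `Q` of primary primes not dividing `D` such that for
every finite subset `S₄` of `Q` the set `Allowed D S₄` is infinite, and for every finite subset `S₂` of
`Allowed D S₄` the field `F = ℚ(i)(⁴√l, √q : l ∈ S₄, q ∈ S₂)` has degree `2 · 4 ^ #S₄ · 2 ^ #S₂`, and the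
order of vanishing formula holds for `E_D : y² = x³ + D x` over `F` and `p = 2`. -/
def Tower (X : ℕ) : Set GaussianInt := {D | D ∈ Family X ∧
  ∃ Q : Set GaussianInt, Q.Infinite ∧ (∀ l ∈ Q, Prime l ∧ Primary l ∧ ¬ l ∣ D) ∧
    ∀ S₄ : Finset GaussianInt, (∀ l ∈ S₄, l ∈ Q) → (Allowed D S₄).Infinite ∧
      ∀ S₂ : Finset GaussianInt, (∀ q ∈ S₂, q ∈ Allowed D S₄) →
        ∀ (F : Type) [Field F] [NumberField F] (ι : GaussianInt →+* 𝓞 F), Generated ι S₄ S₂ →
          Module.finrank ℚ F = 2 * (4 ^ S₄.card * 2 ^ S₂.card) ∧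
          Formula ι (2 * D * ((∏ l ∈ S₄, l) * ∏ q ∈ S₂, q)) D}

/-- the invariants of `V_2` are zero if there are finitely many points -/
lemma noInvariants_of {K : Type} [Field K] [NumberField K] {W : WeierstrassCurve K}
    (hfin : Finite W.toAffine.Point) : NoInvariants W := by
  classical
  intro x hx hfix n
  obtain ⟨j, -, -, hj⟩ := exists_rat W
  obtain ⟨N, hN⟩ : ∃ N : ℕ, N = Nat.card W.toAffine.Point := ⟨_, rfl⟩
  have hN0 : N ≠ 0 := by
    rw [hN]
    exact Nat.card_pos.ne'
  obtain ⟨v, N', hndvd, hNv⟩ := Nat.exists_eq_pow_mul_and_not_dvd hN0 2 (by norm_num)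
  have hpow : ∀ k : ℕ, (2 ^ k : ℕ) • x (n + k) = x n := by
    intro k
    induction k with
    | zero => simp
    | succ k ih => rw [pow_succ, mul_smul, ← add_assoc, (hx (n + k)).1, ih]
  have h1 : N • x (n + v) = 0 := by
    obtain ⟨q, hq⟩ := hj (x (n + v)) (fun σ => hfix σ (n + v))
    rw [← hq, ← map_nsmul, hN, card_nsmul_eq_zero', map_zero]
  have h2 : N' • x n = 0 := by
    rw [← hpow v, smul_smul, mul_comm, ← hNv, h1]
  obtain ⟨m, hm⟩ := (hx n).2
  have h3 := Nat.dvd_gcd (addOrderOf_dvd_iff_nsmul_eq_zero.2 h2)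
    (addOrderOf_dvd_iff_nsmul_eq_zero.2 hm)
  have h4 : Nat.gcd N' (2 ^ m) = 1 :=
    ((Nat.Prime.coprime_iff_not_dvd Nat.prime_two).2 hndvd).symm.pow_right m
  rw [h4, Nat.dvd_one, AddMonoid.addOrderOf_eq_one_iff] at h3
  exact h3

/-- `y² = x³ + a x` is an elliptic curve -/
lemma elliptic {a : F} (ha : a ≠ 0) : (curve a).IsElliptic := by
  constructor
  rw [isUnit_iff_ne_zero]
  have : (curve a).Δ = -64 * a ^ 3 := by
    simp only [curve, WeierstrassCurve.Δ, WeierstrassCurve.b₂, WeierstrassCurve.b₄,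
      WeierstrassCurve.b₆, WeierstrassCurve.b₈]
    ring
  rw [this]
  exact mul_ne_zero (by norm_num) (pow_ne_zero 3 ha)

/-- the formula for one field -/
lemma formula_of (ι : GaussianInt →+* 𝓞 F) {M D : GaussianInt} (hD : D ≠ 0) {a b : ℕ}
    (h : Pool.Agent.Results.MP_78d38b_nt.QuarticTowersSha.ShaFinite ι M D (4 ^ a * 2 ^ b)) :
    Formula ι M D := by
  obtain ⟨⟨-, h1⟩, h2, h3⟩ := h
  have hpt : Finite (curve ((ι D : 𝓞 F) : F)).toAffine.Point := h2
  refine ⟨elliptic ?_, h3, noInvariants_of hpt, ?_⟩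
  · intro h0
    apply hD
    apply Pool.Agent.X253.QT.QI.inj ι
    rw [map_zero]
    exact RingOfIntegers.coe_injective h0
  · refine Pool.Agent.Y667.BKP.h1f_zero Nat.prime_two hpt (2 * a + b) (fun k x hx => ?_)
    have h5 : 2 ^ (2 * a + b) = 4 ^ a * 2 ^ b := by
      rw [pow_add, pow_mul]
      norm_num
    rw [h5]
    exact h1 k x hx

/-- **Main theorem.**  There is `c > 0` such that for all large `X` at least the proportion `c` of all
Gaussian integers `D` of norm at most `X` that no fourth power of a prime divides, and at least `c X` of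
them, have the following property for `E_D : y² = x³ + D x`.  There is an infinite set `Q` of primes
such that for every finite subset `S₄` of `Q` there are infinitely many allowed primes, and for every
finite set `S₂` of allowed primes and `F = ℚ(i)(⁴√l, √q : l ∈ S₄, q ∈ S₂)`, of degree
`2 · 4 ^ #S₄ · 2 ^ #S₂`, the order of vanishing formula for `h¹(E_D)(1)` over `F` and `p = 2` holds, with both
sides zero.  The second part says that these `D` are the isomorphism classes of the elliptic curves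
over `ℚ(i)` with `j`-invariant `1728`. -/
theorem result :
    (∃ c : ℝ, 0 < c ∧ ∃ X₀ : ℕ, ∀ X : ℕ, X₀ ≤ X →
      c * ((Family X).ncard : ℝ) ≤ ((Tower X).ncard : ℝ) ∧ c * X ≤ ((Tower X).ncard : ℝ)) ∧
    ∀ (K : Type) [Field K] [NumberField K] (e : GaussianInt ≃+* 𝓞 K) (E : WeierstrassCurve K)
      [E.IsElliptic], E.j = 1728 → ∃! D : GaussianInt, FourthPowerFree D ∧
        ∃ C : WeierstrassCurve.VariableChange K, C • E = curveOver e D := by
  obtain ⟨⟨c, hc, X₀, h⟩, h2⟩ := Pool.Agent.Results.MP_78d38b_nt.QuarticTowersSha.result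
  refine ⟨⟨c, hc, X₀, fun X hX => ?_⟩, h2⟩
  have hF : Family X = Pool.Agent.Results.MP_78d38b_nt.QuarticTowersSha.Family X := rfl
  have hfin : (Family X).Finite := Pool.Agent.Results.MP_78d38b_nt.QuarticTowersSha.family_finite X
  have hsub : Pool.Agent.Results.MP_78d38b_nt.QuarticTowersSha.Tower X ⊆ Tower X := by
    rintro D ⟨hD, Q, hQ1, hQ2, hQ3⟩
    refine ⟨hD, Q, hQ1, hQ2, fun S₄ hS₄ => ?_⟩
    obtain ⟨h3, h4⟩ := hQ3 S₄ hS₄
    refine ⟨h3, fun S₂ hS₂ F _ _ ι hι => ?_⟩
    obtain ⟨h5, h6⟩ := (h4 S₂ hS₂).2 F ι hι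
    exact ⟨h5, formula_of ι hD.1.1 h6⟩
  have hle : ((Pool.Agent.Results.MP_78d38b_nt.QuarticTowersSha.Tower X).ncard : ℝ) ≤
      ((Tower X).ncard : ℝ) := by
    exact_mod_cast Set.ncard_le_ncard hsub (hfin.subset fun D hD => hD.1)
  obtain ⟨h3, h4⟩ := h X hX
  exact ⟨(hF ▸ h3).trans hle, h4.trans hle⟩

end Pool.Agent.Results.MP_ec4e4b_nt.QuarticTowersOrderFormula
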