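import Pool.Agent.Y667.BKP.Main
import Pool.Agent.Results.MP_78d38b_nt.PositiveProportionSha

/-!
# The order of vanishing formula for a positive proportion of the elliptic curves over `ℚ(i)` with
# `j`-invariant `1728`

`K` is a number field with an isomorphism `e` of the ring `ℤ[i]` of Gaussian integers with its ring
of integers (so `K = ℚ(i)`).  Every elliptic curve over `K` with `j = 1728` is isomorphic to
`E_D : y² = x³ + D x` for exactly one Gaussian integer `D` that no fourth power of a prime divides.

For `M = h¹(E_D)(1)` we have `L(s, M) = L(E_D / K, s + 1)` and `M_2 = V_2 E_D`.  We prove that for a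
positive proportion of all these `D`, ordered by norm, the formula
`ord_{s = 0} L(s, M) = dim H¹_f(K, M_2) - dim H⁰(K, M_2)` holds for `p = 2`: the `L`-function, with all
its Euler factors, is entire and not zero at the centre, and `H⁰(K, V_2 E_D)` and `H¹_f(K, V_2 E_D)` are
zero.

`H1f 2 W` (`Pool.Agent.Y667.BKP.H1f`) is the group of the classes of the continuous cocycles of the
absolute Galois group with values in `V_2 W = T_2 W ⊗ ℚ_2` whose restriction to the completion at every
place is in the image of the Kummer map; this is the condition of Bloch and Kato.  An element of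
`V_2 W` is described by a sequence of points (`IsV 2 W`).

The analytic part and the descent are those of the theorem `MP_78d38b_nt.PositiveProportionSha` of the
library.
-/

set_option autoImplicit false

namespace Pool.Agent.Results.MP_ec4e4b_nt.QuarticTwistsOrderFormula

open NumberField IsDedekindDomain
open Pool.Agent.TH841.SH.D (Gal act Pt)
open Pool.Agent.Y667.BKP (H1f PSeq IsV exists_rat)

/-- `W v` is, for every finite place `v`, an integral model of `E` with discriminant minimal at
`v`. -/
def MinimalModels {K : Type} [Field K] [NumberField K] (E : WeierstrassCurve K)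
    (W : HeightOneSpectrum (𝓞 K) → WeierstrassCurve (𝓞 K)) : Prop :=
  ∀ v : HeightOneSpectrum (𝓞 K),
    (∃ C : WeierstrassCurve.VariableChange K, C • (W v).map (algebraMap (𝓞 K) K) = E) ∧
    ∀ W' : WeierstrassCurve (𝓞 K),
      (∃ C : WeierstrassCurve.VariableChange K, C • W'.map (algebraMap (𝓞 K) K) = E) →
      ∀ n : ℕ, (W v).Δ ∈ v.asIdeal ^ n → W'.Δ ∈ v.asIdeal ^ n

open Classical in
/-- The Euler factor at `v`, `(1 - a_v Nv^{-s} + Nv^{1-2s})⁻¹` if the reduction at `v` is good and
`(1 - a_v Nv^{-s})⁻¹` if it is bad, where `a_v` is `Nv` minus the number of affine points of the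
reduction of `W v`. -/
noncomputable def localFactor {K : Type} [Field K] [NumberField K]
    (W : HeightOneSpectrum (𝓞 K) → WeierstrassCurve (𝓞 K)) (v : HeightOneSpectrum (𝓞 K))
    (s : ℂ) : ℂ :=
  (1 - ((Ideal.absNorm v.asIdeal : ℂ)
        - (Nat.card {xy : (𝓞 K ⧸ v.asIdeal) × (𝓞 K ⧸ v.asIdeal) //
            ((W v).map (Ideal.Quotient.mk v.asIdeal)).toAffine.Equation xy.1 xy.2} : ℂ))
        * (Ideal.absNorm v.asIdeal : ℂ) ^ (-s)
    + (if (W v).Δ ∈ v.asIdeal then 0 else (Ideal.absNorm v.asIdeal : ℂ))
        * (Ideal.absNorm v.asIdeal : ℂ) ^ (-2 * s))⁻¹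

/-- `ord_{s = 1} L(E/K, s) = 0`: the product of the Euler factors of `E` (for minimal models,
`Re s > 3/2`) extends to an entire function that does not vanish at `s = 1`. -/
def OrderZero {K : Type} [Field K] [NumberField K] (E : WeierstrassCurve K) : Prop :=
  (∃ W : HeightOneSpectrum (𝓞 K) → WeierstrassCurve (𝓞 K), MinimalModels E W) ∧
  ∃ L : ℂ → ℂ, Differentiable ℂ L ∧
    (∀ W : HeightOneSpectrum (𝓞 K) → WeierstrassCurve (𝓞 K), MinimalModels E W →
      ∀ s : ℂ, 3 / 2 < s.re → HasProd (fun v => localFactor W v s) (L s)) ∧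
    L 1 ≠ 0

/-- `H⁰(K, V_2 W) = 0`: the elements of `V_2 W` that are fixed by the Galois group are zero. -/
def NoInvariants {K : Type} [Field K] (W : WeierstrassCurve K) : Prop :=
  ∀ x : PSeq W, IsV 2 W x → (∀ (σ : Gal K) (n : ℕ), act W σ.toAlgHom (x n) = x n) → ∀ n, x n = 0

/-- The order of vanishing formula for `h¹(W)(1)` and `p = 2`, with both sides zero: `W` is an elliptic
curve, its `L`-function is entire and not zero at `1`, and `H⁰(K, V_2 W)` and `H¹_f(K, V_2 W)` are
zero. -/
def Formula {K : Type} [Field K] [NumberField K] (W : WeierstrassCurve K) : Prop :=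
  W.IsElliptic ∧ OrderZero W ∧ NoInvariants W ∧ ∀ x : H1f 2 W, x = 0

/-- The curve `y² = x³ + D x`. -/
noncomputable def curve {K : Type} [Field K] [NumberField K] (e : GaussianInt ≃+* 𝓞 K)
    (D : GaussianInt) : WeierstrassCurve K :=
  ⟨0, 0, 0, algebraMap (𝓞 K) K (e D), 0⟩

/-- `D` is not zero and no fourth power of a prime divides it. -/
def FourthPowerFree (D : GaussianInt) : Prop := D ≠ 0 ∧ ∀ π : GaussianInt, Prime π → ¬ π ^ 4 ∣ D

/-- All the parameters `D` of norm at most `X`. -/
def Family (X : ℕ) : Set GaussianInt := {D | FourthPowerFree D ∧ D.norm ≤ X}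

/-- The parameters `D` in `Family X` such that the formula holds for `E_D : y² = x³ + D x` over
`K = ℚ(i)` (every number field `K` with an isomorphism `e` of `ℤ[i]` with its ring of integers). -/
def Proved (X : ℕ) : Set GaussianInt :=
  {D | D ∈ Family X ∧
    ∀ (K : Type) [Field K] [NumberField K] (e : GaussianInt ≃+* 𝓞 K), Formula (curve e D)}

/-- the invariants of `V_2` are zero if there are finitely many points -/
lemma noInvariants_of {K : Type} [Field K] [NumberField K] {W : WeierstrassCurve K}
    (hfin : Finite W.toAffine.Point) : NoInvariants W := by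
  classical
  intro x hx hfix n
  obtain ⟨j, -, -, hj⟩ := exists_rat W
  obtain ⟨N, hN⟩ : ∃ N : ℕ, N = Nat.card W.toAffine.Point := ⟨_, rfl⟩
  have hN0 : N ≠ 0 := by
    rw [hN]
    exact Nat.card_pos.ne'
  obtain ⟨v, N', hndvd, hNv⟩ := Nat.exists_eq_pow_mul_and_not_dvd hN0 2 (by norm_num)
  have hpow : ∀ k : ℕ, (2 ^ k : ℕ) • x (n + k) = x n := by
    intro k
    induction k with
    | zero => simp
    | succ k ih => rw [pow_succ, mul_smul, ← add_assoc, (hx (n + k)).1, ih]
  have h1 : N • x (n + v) = 0 := by
    obtain ⟨q, hq⟩ := hj (x (n + v)) (fun σ => hfix σ (n + v))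
    rw [← hq, ← map_nsmul, hN, card_nsmul_eq_zero', map_zero]
  have h2 : N' • x n = 0 := by
    rw [← hpow v, smul_smul, mul_comm, ← hNv, h1]
  obtain ⟨m, hm⟩ := (hx n).2
  have h3 := Nat.dvd_gcd (addOrderOf_dvd_iff_nsmul_eq_zero.2 h2)
    (addOrderOf_dvd_iff_nsmul_eq_zero.2 hm)
  have h4 : Nat.gcd N' (2 ^ m) = 1 :=
    ((Nat.Prime.coprime_iff_not_dvd Nat.prime_two).2 hndvd).symm.pow_right m
  rw [h4, Nat.dvd_one, AddMonoid.addOrderOf_eq_one_iff] at h3
  exact h3

/-- `y² = x³ + D x` is an elliptic curve -/
lemma elliptic {K : Type} [Field K] [NumberField K] (e : GaussianInt ≃+* 𝓞 K) {D : GaussianInt}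
    (hD : D ≠ 0) : (curve e D).IsElliptic := by
  have h0 : algebraMap (𝓞 K) K (e D) ≠ 0 := by
    rw [Ne, FaithfulSMul.algebraMap_eq_zero_iff, EmbeddingLike.map_eq_zero_iff]
    exact hD
  constructor
  rw [isUnit_iff_ne_zero]
  have : (curve e D).Δ = -64 * algebraMap (𝓞 K) K (e D) ^ 3 := by
    simp only [curve, WeierstrassCurve.Δ, WeierstrassCurve.b₂, WeierstrassCurve.b₄,
      WeierstrassCurve.b₆, WeierstrassCurve.b₈]
    ring
  rw [this]
  exact mul_ne_zero (by norm_num) (pow_ne_zero 3 h0)

/-- **Main theorem.**  Let `K = ℚ(i)`.  There is `c > 0` such that for all large `X` at least the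
proportion `c` of all Gaussian integers `D` of norm at most `X` that no fourth power of a prime divides,
and at least `c X` of them, have the property that for `E_D : y² = x³ + D x` over `K` and `p = 2` the
order of vanishing formula holds, with both sides equal to zero.  These `D` are the isomorphism
classes of the elliptic curves over `K` with `j`-invariant `1728`. -/
theorem result :
    (∃ c : ℝ, 0 < c ∧ ∃ X₀ : ℕ, ∀ X : ℕ, X₀ ≤ X →
      c * ((Family X).ncard : ℝ) ≤ ((Proved X).ncard : ℝ) ∧ c * X ≤ ((Proved X).ncard : ℝ)) ∧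
    ∀ (K : Type) [Field K] [NumberField K] (e : GaussianInt ≃+* 𝓞 K) (E : WeierstrassCurve K)
      [E.IsElliptic], E.j = 1728 → ∃! D : GaussianInt, FourthPowerFree D ∧
        ∃ C : WeierstrassCurve.VariableChange K, C • E = curve e D := by
  constructor
  · obtain ⟨c, hc, X₀, h⟩ := Pool.Agent.Results.MP_78d38b_nt.PositiveProportionSha.result
    refine ⟨c, hc, X₀, fun X hX => ?_⟩
    have hF : Family X = Pool.Agent.Results.MP_78d38b_nt.PositiveProportionSha.Family X := rfl
    have hfin : (Family X).Finite :=
      Pool.Agent.Results.MP_78d38b_nt.PositiveProportionSha.family_finite X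
    have hsub : Pool.Agent.Results.MP_78d38b_nt.PositiveProportionSha.Proved X ⊆ Proved X := by
      rintro D ⟨hD, hall⟩
      refine ⟨hD, fun K _ _ e => ?_⟩
      obtain ⟨h1, h2, h3⟩ := hall K e
      have hpt : Finite (curve e D).toAffine.Point :=
        Nat.finite_of_card_ne_zero (by
          have : Nat.card (curve e D).toAffine.Point = 2 := h2
          omega)
      refine ⟨elliptic e hD.1.1, h3, noInvariants_of hpt, ?_⟩
      exact Pool.Agent.Y667.BKP.h1f_zero Nat.prime_two hpt 0 (fun k x hx => by
        have h0 : x = 0 := h1 k x hx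
        rw [h0]
        exact smul_zero _)
    have hle : ((Pool.Agent.Results.MP_78d38b_nt.PositiveProportionSha.Proved X).ncard : ℝ) ≤
        ((Proved X).ncard : ℝ) := by
      exact_mod_cast Set.ncard_le_ncard hsub (hfin.subset fun D hD => hD.1)
    obtain ⟨h1, h2⟩ := h X hX
    exact ⟨(hF ▸ h1).trans hle, h2.trans hle⟩
  · intro K _ _ e E _ hj
    exact Pool.Agent.Results.MP_78d38b_nt.PositiveProportionSha.classification e E hj

end Pool.Agent.Results.MP_ec4e4b_nt.QuarticTwistsOrderFormula
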